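import Pool.Agent.W619.Y.Stm4

/-! PG-DESC: descent of sections along the curve. -/

set_option autoImplicit false
set_option linter.overlappingInstances false
set_option linter.unusedSectionVars false

universe u v

open FF IntermediateField Pool.Agent.W619.PQ Pool.Agent.W619.PL Pool.Agent.W619.TW
  Pool.Agent.W603.LV Pool.Agent.W619.Y

namespace Pool.Agent.W351.PG

section

variable {k L : Type*} [Field k] [Field L] [Algebra k L] {M F : IntermediateField k L}

/-- Every element of the compositum is a quotient of elements of the ring. -/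
theorem frac (hsup : M ⊔ F = ⊤) (z : L) : ∃ a ∈ RR M F, ∃ b ∈ RR M F, b ≠ 0 ∧ z = a / b := by
  have hz : z ∈ IntermediateField.adjoin F (M : Set L) := by
    have h1 : (⊤ : IntermediateField k L) ≤
        (IntermediateField.adjoin F (M : Set L)).restrictScalars k := by
      rw [← hsup, sup_le_iff]
      constructor
      · intro y hy
        rw [mem_restrictScalars]
        exact subset_adjoin F _ hy
      · intro y hy
        rw [mem_restrictScalars]
        exact (IntermediateField.adjoin F (M : Set L)).algebraMap_mem ⟨y, hy⟩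
    exact h1 (by trivial : z ∈ (⊤ : IntermediateField k L))
  rw [IntermediateField.mem_adjoin_iff_div] at hz
  obtain ⟨a, ha, b, hb, rfl⟩ := hz
  by_cases hb0 : b = 0
  · exact ⟨0, zero_mem _, 1, one_mem _, one_ne_zero, by rw [hb0]; simp⟩
  · exact ⟨a, ha, b, hb, hb0, rfl⟩

theorem expand_fin {z : L} (hz : z ∈ RR F M) : ∃ (r : ℕ) (β : Fin r → F) (q : Fin r → M),
    LinearIndependent k β ∧ z = ∑ i, (β i : L) * (q i : L) := by
  classical
  obtain ⟨s, γ, hs⟩ := RR.expand (M := F) (F := M) hz
  refine ⟨s.card, fun j => Module.Basis.ofVectorSpace k F (s.equivFin.symm j : _),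
    fun j => γ (s.equivFin.symm j : _), ?_, ?_⟩
  · exact (Module.Basis.ofVectorSpace k F).linearIndependent.comp
      (fun j : Fin s.card => ((s.equivFin.symm j : s) : Module.Basis.ofVectorSpaceIndex k F))
      (fun a b hab => s.equivFin.symm.injective (Subtype.ext hab))
  · rw [hs, ← Finset.sum_coe_sort s]
    exact (Equiv.sum_comp s.equivFin.symm (fun i : s =>
      ((Module.Basis.ofVectorSpace k F (i : _) : F) : L) * (γ (i : _) : L))).symm

/-- A lower bound for the order along the Gauss extensions. -/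
theorem key (hsup : M ⊔ F = ⊤) (z : L) (hz : z ≠ 0) : ∃ T : Finset M,
    ∀ (u : Place k M) (U : Place k L), (∀ μ : M, U.ord (μ : L) = u.ord μ) →
      (∀ β : F, U.ord (β : L) = 0) →
      (∀ (r : ℕ) (β : Fin r → F) (μ : Fin r → M) (c : ℤ), LinearIndependent k β →
        Ge U c (∑ i, (β i : L) * (μ i : L)) → ∀ i, Ge u c (μ i)) →
      ∃ s ∈ T, s ≠ 0 ∧ u.ord s ≤ U.ord z := by
  classical
  obtain ⟨P, hP, Q, hQ, hQ0, hzPQ⟩ := frac (M := F) (F := M) (by rw [sup_comm]; exact hsup) z
  obtain ⟨r, β, p, -, hp⟩ := expand_fin hP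
  obtain ⟨r', β', q, hβ', hq⟩ := expand_fin hQ
  have hP0 : P ≠ 0 := by
    rintro rfl
    apply hz
    rw [hzPQ, zero_div]
  have hj : ∃ j, q j ≠ 0 := by
    by_contra hcon
    push Not at hcon
    apply hQ0
    rw [hq]
    exact Finset.sum_eq_zero fun j _ => by rw [hcon j]; simp
  obtain ⟨j, hj⟩ := hj
  have hi : ∃ i, p i ≠ 0 := by
    by_contra hcon
    push Not at hcon
    apply hP0
    rw [hp]
    exact Finset.sum_eq_zero fun j _ => by rw [hcon j]; simp
  obtain ⟨i1, hi1⟩ := hi
  refine ⟨((Finset.univ : Finset (Fin r)).filter fun i => p i ≠ 0).image fun i => p i / q j, ?_⟩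
  intro u U h1 h2 h3
  obtain ⟨i0, hi0, hmin⟩ := Finset.exists_min_image
    ((Finset.univ : Finset (Fin r)).filter fun i => p i ≠ 0) (fun i => u.ord (p i))
    ⟨i1, Finset.mem_filter.2 ⟨Finset.mem_univ _, hi1⟩⟩
  have hi0' : p i0 ≠ 0 := (Finset.mem_filter.1 hi0).2
  refine ⟨p i0 / q j, Finset.mem_image_of_mem _ hi0, div_ne_zero hi0' hj, ?_⟩
  have hPge : Ge U (u.ord (p i0)) P := by
    rw [hp]
    refine Ge.sum _ _ fun i _ => ?_
    by_cases hpi : p i = 0
    · left; rw [hpi]; simp
    · have ha : Ge U 0 ((β i : F) : L) := by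
        by_cases hb : (β i : L) = 0
        · exact Or.inl hb
        · exact Or.inr (h2 (β i)).ge
      have hb : Ge U (u.ord (p i0)) ((p i : M) : L) := by
        right
        rw [h1]
        exact hmin i (Finset.mem_filter.2 ⟨Finset.mem_univ _, hpi⟩)
      have := ha.mul hb
      rwa [zero_add] at this
  have hPge' : u.ord (p i0) ≤ U.ord P := hPge.resolve_left hP0
  have hQle : Ge u (U.ord Q) (q j) := h3 r' β' q (U.ord Q) hβ' (by rw [← hq]; exact Or.inr le_rfl) j
  have hQle' : U.ord Q ≤ u.ord (q j) := hQle.resolve_left hj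
  rw [hzPQ, U.ord_div hP0 hQ0, u.ord_div hi0' hj]
  omega

end

theorem det_block {R : Type*} [CommRing R] {d : ℕ} (N : Matrix (Fin d) (Fin d) R) :
    (Matrix.of (Fin.cons (Fin.cons 1 0) (fun a => Fin.cons 0 (N a)) :
      Fin (d + 1) → Fin (d + 1) → R)).det = N.det := by
  rw [Matrix.det_succ_row_zero, Fin.sum_univ_succ]
  have h0 : ∀ i : Fin d, (Matrix.of (Fin.cons (Fin.cons 1 0) (fun a => Fin.cons 0 (N a)) :
      Fin (d + 1) → Fin (d + 1) → R)) 0 i.succ = 0 := by
    intro i; simp [Matrix.of_apply]
  have h1 : ((Matrix.of (Fin.cons (Fin.cons 1 0) (fun a => Fin.cons 0 (N a)) :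
      Fin (d + 1) → Fin (d + 1) → R)).submatrix Fin.succ (Fin.succAbove 0)) = N := by
    ext a b
    simp [Matrix.of_apply, Matrix.submatrix_apply]
  rw [Finset.sum_eq_zero fun i _ => by rw [h0 i]; simp, h1]
  simp [Matrix.of_apply]

theorem der_sum {k L : Type*} [Field k] [Field L] [Algebra k L] {ι : Type*} (s : Finset ι)
    (E : ι → Derivation k L L) (f : L) : (∑ j ∈ s, E j) f = ∑ j ∈ s, E j f := by
  classical
  induction s using Finset.induction_on with
  | empty => simp
  | insert a s ha ih => rw [Finset.sum_insert ha, Finset.sum_insert ha, Derivation.add_apply, ih]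

theorem main (h1 : S_GAUSS.{u, v}) : S_DESC.{u, v} := by
  classical
  intro k L _ _ _ _ _ M F _ d htM htL hsup y hy t ht E hE0 hE0t hEF hEy S b0 hb0
  -- `S'`
  have hkey : ∀ s : L, ∃ T : Finset M, s ≠ 0 → ∀ (u : Place k M) (U : Place k L),
      (∀ μ : M, U.ord (μ : L) = u.ord μ) → (∀ β : F, U.ord (β : L) = 0) →
      (∀ (r : ℕ) (β : Fin r → F) (μ : Fin r → M) (c : ℤ), LinearIndependent k β →
        Ge U c (∑ i, (β i : L) * (μ i : L)) → ∀ i, Ge u c (μ i)) →
      ∃ s' ∈ T, s' ≠ 0 ∧ u.ord s' ≤ U.ord (b0 * s) := by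
    intro s
    by_cases hs : s = 0
    · exact ⟨∅, fun h => absurd hs h⟩
    · obtain ⟨T, hT⟩ := key hsup (b0 * s) (mul_ne_zero hb0 hs)
      exact ⟨T, fun _ => hT⟩
  choose T hT using hkey
  refine ⟨S.biUnion T, ?_⟩
  intro m ω hω r β μ hβ hsum i
  refine ⟨?_, ?_, fun _ _ hf => absurd hf id⟩
  · -- pluricanonical form
    intro A D
    have hdet : (Matrix.of fun a b => (∑ j, A a j • D j) (y b)).det =
        A.det * (Matrix.of fun a b => D a (y b)).det := by
      rw [← Matrix.det_mul]
      congr 1
      ext a b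
      rw [Matrix.mul_apply, Matrix.of_apply, der_sum]
      rfl
    show μ i * (Matrix.of fun a b => (∑ j, A a j • D j) (y b)).det ^ m = _
    rw [hdet]
    ring
  · intro u hu _ D hD
    obtain ⟨U, hU1, hU2, hU3, hU4, hU5⟩ := h1 k L M F d htM htL hsup u
    set δ : M := (Matrix.of fun a b => D a (y b)).det with hδ
    -- the extended vector fields
    let D' : Fin d → Derivation k L L := fun a => ∑ b, ((D a (y b) : M) : L) • E b.succ
    have hD'y : ∀ a j, D' a (y j : L) = ((D a (y j) : M) : L) := by
      intro a j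
      show (∑ b, ((D a (y b) : M) : L) • E b.succ) (y j : L) = _
      rw [der_sum, Finset.sum_eq_single j]
      · rw [Derivation.smul_apply, hEy, if_pos rfl, smul_eq_mul, mul_one]
      · intro b _ hb
        rw [Derivation.smul_apply, hEy, if_neg hb, smul_zero]
      · intro h; exact absurd (Finset.mem_univ _) h
    have hD'M : ∀ a (f : M), D' a (f : L) = ((D a f : M) : L) := by
      intro a f
      exact der_comp (D a) (D' a) y hy (fun j => hD'y a j) f
    have hD'F : ∀ a (f : F), D' a (f : L) = 0 := by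
      intro a f
      show (∑ b, ((D a (y b) : M) : L) • E b.succ) (f : L) = _
      rw [der_sum]
      refine Finset.sum_eq_zero fun b _ => ?_
      rw [Derivation.smul_apply, hEF, smul_zero]
    have hE0F : ∀ f : F, ∃ f' : F, E 0 (f : L) = (f' : L) := by
      have hb := IsFF.basis (k := k) (K := F) ht
      obtain ⟨δ0, hδ0⟩ := exists_dual (fun _ : Unit => t) hb ()
      intro f
      refine ⟨δ0 f, der_comp δ0 (E 0) (fun _ : Unit => t) hb (fun j => ?_) f⟩
      have h5 : δ0 t = 1 := by
        have := hδ0 ()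
        simpa using this
      show E 0 (t : L) = ((δ0 t : F) : L)
      rw [hE0t, h5]
      rfl
    have hPres0 : Pres U (E 0) := by
      refine hU5 (E 0) (fun f _ => ⟨0, ?_, u.reg_zero⟩) hE0F
      rw [hE0]; rfl
    have hPres : ∀ a, Pres U (D' a) := by
      intro a
      refine hU5 (D' a) (fun f hf => ⟨D a f, hD'M a f, hD a f hf⟩) (fun f => ⟨0, ?_⟩)
      rw [hD'F]; rfl
    let DD : Fin (d + 1) → Derivation k L L := Fin.cons (E 0) D'
    have hDD : ∀ l, ∀ f, U.Reg f → U.Reg (DD l f) := by
      intro l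
      refine Fin.cases ?_ (fun a => ?_) l
      · exact hPres0
      · exact hPres a
    -- the value of `ω`
    let A : Matrix (Fin (d + 1)) (Fin (d + 1)) L :=
      Matrix.of (Fin.cons (Fin.cons 1 0) (fun a => Fin.cons 0 (fun b => ((D a (y b) : M) : L))) :
        Fin (d + 1) → Fin (d + 1) → L)
    have hAdet : A.det = (δ : L) := by
      have h6 := det_block (Matrix.of fun a b => ((D a (y b) : M) : L))
      have h7 : A.det = (Matrix.of fun a b => ((D a (y b) : M) : L)).det := h6
      rw [h7, hδ]
      exact (RingHom.map_det (algebraMap M L) (Matrix.of fun a b => D a (y b))).symm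
    have hDDA : DD = fun i => ∑ j, A i j • E j := by
      funext l
      refine Fin.cases ?_ (fun a => ?_) l
      · show E 0 = _
        rw [Fin.sum_univ_succ]
        have : ∀ b : Fin d, A 0 b.succ = 0 := by
          intro b; simp [A, Matrix.of_apply]
        rw [Finset.sum_eq_zero fun b _ => by rw [this b, zero_smul]]
        have : A 0 0 = 1 := by simp [A, Matrix.of_apply]
        rw [this, one_smul, add_zero]
      · show D' a = _
        rw [Fin.sum_univ_succ]
        have : A a.succ 0 = 0 := by simp [A, Matrix.of_apply]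
        rw [this, zero_smul, zero_add]
        refine Finset.sum_congr rfl fun b _ => ?_
        have : A a.succ b.succ = ((D a (y b) : M) : L) := by simp [A, Matrix.of_apply]
        rw [this]
    have hωDD : ω DD = (δ : L) ^ m * ω E := by
      rw [hDDA, hω.1 A E, hAdet]
    have hsum' : b0 * ω DD = ∑ i, (β i : L) * ((μ i * δ ^ m : M) : L) := by
      rw [hωDD, show b0 * ((δ : L) ^ m * ω E) = (δ : L) ^ m * (b0 * ω E) by ring, hsum,
        Finset.mul_sum]
      refine Finset.sum_congr rfl fun i _ => ?_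
      push_cast
      ring
    have hdom := hω.2.1 U (hU4 hu) id DD hDD
    rcases hdom with h0 | ⟨s, hsS, hs0, hs⟩
    · left
      by_contra hne
      have h8 : ∀ c : ℤ, Ge u c (μ i * δ ^ m) := fun c => hU3 r β (fun i => μ i * δ ^ m) c hβ
        (by rw [← hsum', h0, mul_zero]; exact Or.inl rfl) i
      have h9 := (h8 (u.ord (μ i * δ ^ m) + 1)).resolve_left hne
      omega
    · obtain ⟨s', hs'T, hs'0, hs'⟩ := hT s hs0 u U hU1 hU2 hU3
      by_cases h0 : ω DD = 0
      · left
        by_contra hne
        have h8 : ∀ c : ℤ, Ge u c (μ i * δ ^ m) := fun c => hU3 r β (fun i => μ i * δ ^ m) c hβ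
          (by rw [← hsum', h0, mul_zero]; exact Or.inl rfl) i
        have h9 := (h8 (u.ord (μ i * δ ^ m) + 1)).resolve_left hne
        omega
      · have h8 : Ge u (U.ord (b0 * s)) (μ i * δ ^ m) := by
          refine hU3 r β (fun i => μ i * δ ^ m) _ hβ ?_ i
          rw [← hsum']
          right
          rw [U.ord_mul hb0 hs0, U.ord_mul hb0 h0]
          push_cast at hs
          linarith
        rcases h8 with h8 | h8
        · exact Or.inl h8
        · right
          refine ⟨s', Finset.mem_biUnion.2 ⟨s, hsS, hs'T⟩, hs'0, ?_⟩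
          push_cast
          rw [one_mul]
          exact hs'.trans h8

end Pool.Agent.W351.PG
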